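import Mathlib

/-!
# Automaton groups of regular actions do not contain lamplighter groups over nonabelian groups

Let `Y` be a finite nonabelian group. The restricted wreath product `Y ≀ ℤ` is not residually
finite: if `φ` is a homomorphism of it to a finite group and `t` is the generator of `ℤ`, then
`φ (t ^ m) = 1` for some `m > 0`. Hence an element `u` of the copy of `Y` at the coordinate `0` and
the corresponding element at the coordinate `m` have the same image, and the latter commutes with
all the elements at the coordinate `0`. So the image of the copy of `Y` at the coordinate `0` is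
abelian. On the other hand the elements of the finite state wreath power `W_Y` preserve the length
of words, hence act on the finite sets of the words of a given length, and `W_Y` is residually
finite.
-/

set_option autoImplicit false

namespace Pool.Agent.Results.MP_e17fb9_al.NonabelianFails

/-! ## The restricted wreath product -/

/-- The functions `ℤ → Y` which have the value `1` outside of a finite set. -/
def Base (Y : Type) [Group Y] : Subgroup (ℤ → Y) where
  carrier := {f | {n | f n ≠ 1}.Finite}
  one_mem' := by simp
  mul_mem' := by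
    intro f g hf hg
    refine (hf.union hg).subset ?_
    intro n hn
    by_contra hcon
    simp only [Set.mem_union, Set.mem_ofPred_eq, not_or, not_not] at hcon
    exact hn (by rw [Pi.mul_apply, hcon.1, hcon.2, one_mul])
  inv_mem' := by
    intro f hf
    refine Set.Finite.subset hf ?_
    intro n hn h
    exact hn (by rw [Pi.inv_apply, h, inv_one])

/-- The shift of the coordinates by `k`. -/
def shiftAut (Y : Type) [Group Y] (k : ℤ) : MulAut (Base Y) where
  toFun f := ⟨fun n => f.1 (n - k), (f.2.image (fun n => n + k)).subset (by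
    intro n hn
    exact ⟨n - k, hn, by simp⟩)⟩
  invFun f := ⟨fun n => f.1 (n + k), (f.2.image (fun n => n - k)).subset (by
    intro n hn
    exact ⟨n + k, hn, by simp⟩)⟩
  left_inv f := by
    apply Subtype.ext
    funext n
    show f.1 (n + k - k) = f.1 n
    rw [add_sub_cancel_right]
  right_inv f := by
    apply Subtype.ext
    funext n
    show f.1 (n - k + k) = f.1 n
    rw [sub_add_cancel]
  map_mul' f g := rfl

/-- The action of `ℤ` on `Base Y` by shifting coordinates. -/
def shift (Y : Type) [Group Y] : Multiplicative ℤ →* MulAut (Base Y) where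
  toFun k := shiftAut Y k.toAdd
  map_one' := by
    ext f n
    show f.1 (n - 0) = f.1 n
    rw [sub_zero]
  map_mul' k l := by
    ext f n
    show f.1 (n - (k.toAdd + l.toAdd)) = f.1 (n - k.toAdd - l.toAdd)
    rw [sub_sub]

/-- The restricted wreath product `Y ≀ ℤ`. -/
abbrev Lamplighter (Y : Type) [Group Y] := Base Y ⋊[shift Y] Multiplicative ℤ

/-! ## The automata -/

/-- The map of words defined by the state `q` of an automaton over the alphabet `Y` with the
transition function `next` and the output function `out`. -/
def run {Y Q : Type} (next : Q → Y → Q) (out : Q → Y → Y) : Q → List Y → List Y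
  | _, [] => []
  | q, x :: w => out q x :: run next out (next q x) w

/-- The finite state wreath power of the regular group `Y`: the group of all permutations of the
set of words which are defined at some state of some finite automaton over the alphabet `Y` such
that at every state `q` the output map is the left multiplication by an element `c q` of `Y`. -/
def W (Y : Type) [Group Y] : Subgroup (Equiv.Perm (List Y)) where
  carrier := {f | ∃ (Q : Type) (_ : Finite Q) (next : Q → Y → Q) (c : Q → Y) (q : Q),
    ∀ w, f w = run next (fun q x => c q * x) q w}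
  one_mem' := by
    refine ⟨Unit, inferInstance, fun _ _ => (), fun _ => 1, (), fun w => ?_⟩
    induction w with
    | nil => rfl
    | cons x w ih =>
      rw [run, ← ih, one_mul]
      rfl
  mul_mem' := by
    rintro f g ⟨Q, hQ, next, c, q, hf⟩ ⟨Q', hQ', next', c', q', hg⟩
    refine ⟨Q × Q', inferInstance, fun p x => (next p.1 (c' p.2 * x), next' p.2 x),
      fun p => c p.1 * c' p.2, (q, q'), fun w => ?_⟩
    rw [Equiv.Perm.mul_apply, hf, hg]
    clear hf hg
    induction w generalizing q q' with
    | nil => rfl
    | cons x w ih =>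
      rw [run, run, ih, ← mul_assoc]
      rfl
  inv_mem' := by
    rintro f ⟨Q, hQ, next, c, q, hf⟩
    refine ⟨Q, hQ, fun q x => next q ((c q)⁻¹ * x), fun q => (c q)⁻¹, q, fun w => ?_⟩
    rw [Equiv.Perm.inv_eq_iff_eq, hf]
    clear hf
    induction w generalizing q with
    | nil => rfl
    | cons x w ih =>
      simp only [run]
      rw [← ih, mul_inv_cancel_left]

/-- The map `a_i` of words: `a_i ∅ = ∅` and `a_i (j w) = (i j) (a_{j⁻¹ i} w)`. -/
def a {Y : Type} [Group Y] : Y → List Y → List Y
  | _, [] => []
  | i, j :: w => (i * j) :: a (j⁻¹ * i) w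

/-- The inverse of `a_i`. -/
def b {Y : Type} [Group Y] : Y → List Y → List Y
  | _, [] => []
  | i, j :: w => (i⁻¹ * j) :: b ((i⁻¹ * j)⁻¹ * i) w

/-- The permutation `a_i` of the set of words. -/
def aPerm {Y : Type} [Group Y] (i : Y) : Equiv.Perm (List Y) where
  toFun := a i
  invFun := b i
  left_inv w := by
    induction w generalizing i with
    | nil => rfl
    | cons j w ih =>
      simp only [a, b]
      rw [inv_mul_cancel_left, ih]
  right_inv w := by
    induction w generalizing i with
    | nil => rfl
    | cons j w ih =>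
      simp only [a, b]
      rw [mul_inv_cancel_left, ih]

/-- The group `𝔾_Y` generated by all `a_i`. -/
def GG (Y : Type) [Group Y] : Subgroup (Equiv.Perm (List Y)) :=
  Subgroup.closure (Set.range (aPerm (Y := Y)))

lemma aPerm_mem {Y : Type} [Group Y] [Finite Y] (i : Y) : aPerm i ∈ W Y := by
  refine ⟨Y, inferInstance, fun q x => x⁻¹ * q, fun q => q, i, fun w => ?_⟩
  show a i w = _
  induction w generalizing i with
  | nil => rfl
  | cons j w ih =>
    rw [a, run, ih]

lemma GG_le_W (Y : Type) [Group Y] [Finite Y] : GG Y ≤ W Y := by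
  rw [GG, Subgroup.closure_le]
  rintro _ ⟨i, rfl⟩
  exact aPerm_mem i

/-! ## Residual finiteness -/

lemma run_length {Y Q : Type} (next : Q → Y → Q) (out : Q → Y → Y) (q : Q) (w : List Y) :
    (run next out q w).length = w.length := by
  induction w generalizing q with
  | nil => rfl
  | cons x w ih => rw [run, List.length_cons, List.length_cons, ih]

lemma length_of_mem {Y : Type} [Group Y] {f : Equiv.Perm (List Y)} (hf : f ∈ W Y) (w : List Y) :
    (f w).length = w.length := by
  obtain ⟨Q, hQ, next, c, q, hf⟩ := hf
  rw [hf, run_length]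

/-- The action of `W_Y` on the words of length `n`. -/
def level (Y : Type) [Group Y] (n : ℕ) : W Y →* Equiv.Perm {w : List Y // w.length = n} where
  toFun f := f.1.subtypePerm fun w => by rw [length_of_mem f.2]
  map_one' := rfl
  map_mul' f g := rfl

/-- The element of `Y ≀ ℤ` with the value `y` at the coordinate `n` and the value `1` at the other
coordinates. -/
def el {Y : Type} [Group Y] (n : ℤ) (y : Y) : Lamplighter Y :=
  SemidirectProduct.inl ⟨fun k => if k = n then y else 1, (Set.finite_singleton n).subset (by
    intro k hk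
    by_contra hne
    exact hk (if_neg hne))⟩

/-- The generator of `ℤ`. -/
def tt (Y : Type) [Group Y] : Lamplighter Y := SemidirectProduct.inr (Multiplicative.ofAdd 1)

lemma tt_pow {Y : Type} [Group Y] (m : ℕ) :
    tt Y ^ m = SemidirectProduct.inr (Multiplicative.ofAdd (m : ℤ)) := by
  rw [tt, ← map_pow, ← ofAdd_nsmul, nsmul_one]

lemma conj_el {Y : Type} [Group Y] (m : ℕ) (y : Y) :
    tt Y ^ m * el 0 y * (tt Y ^ m)⁻¹ = el (m : ℤ) y := by
  rw [tt_pow, ← map_inv, el, ← SemidirectProduct.inl_aut, el]
  congr 1
  apply Subtype.ext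
  funext k
  show (if k - m = 0 then y else 1) = if k = m then y else 1
  by_cases hk : k = m
  · rw [if_pos hk, if_pos (by omega)]
  · rw [if_neg hk, if_neg (by omega)]

lemma commute_el {Y : Type} [Group Y] {m : ℤ} (hm : m ≠ 0) (y z : Y) :
    el m y * el 0 z = el 0 z * el m y := by
  rw [el, el, ← map_mul, ← map_mul]
  congr 1
  apply Subtype.ext
  funext k
  show (if k = m then y else 1) * (if k = 0 then z else 1) =
    (if k = 0 then z else 1) * if k = m then y else 1
  by_cases hk : k = 0
  · rw [if_neg (by omega : k ≠ m), one_mul, mul_one]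
  · rw [if_neg hk, one_mul, mul_one]

lemma el_zero_mul {Y : Type} [Group Y] (y z : Y) : el 0 y * el 0 z = el 0 (y * z) := by
  rw [el, el, el, ← map_mul]
  congr 1
  apply Subtype.ext
  funext k
  show (if k = 0 then y else 1) * (if k = 0 then z else 1) = if k = 0 then y * z else 1
  by_cases hk : k = 0
  · rw [if_pos hk, if_pos hk, if_pos hk]
  · rw [if_neg hk, if_neg hk, if_neg hk, one_mul]

lemma el_injective {Y : Type} [Group Y] {y z : Y} (h : el 0 y = el 0 z) : y = z := by
  have h1 := congrArg Subtype.val (SemidirectProduct.inl_injective h)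
  have h2 := congrFun h1 0
  simpa using h2

/-- The image of the copy of `Y` at the coordinate `0` in a finite group is abelian. -/
lemma map_el {Y K : Type} [Group Y] [Group K] [Finite K] (φ : Lamplighter Y →* K) (y z : Y) :
    φ (el 0 (y * z)) = φ (el 0 (z * y)) := by
  obtain ⟨m, hm, hpow⟩ := (isOfFinOrder_of_finite (φ (tt Y))).exists_pow_eq_one
  have h1 : φ (el (m : ℤ) y) = φ (el 0 y) := by
    rw [← conj_el, map_mul, map_mul, map_inv, map_pow, hpow, one_mul, inv_one, mul_one]
  have h2 : (m : ℤ) ≠ 0 := by omega
  rw [← el_zero_mul, ← el_zero_mul, map_mul, map_mul, ← h1, ← map_mul, commute_el h2, map_mul]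

/-- A nonabelian wreath product `Y ≀ ℤ` does not embed in `W_X`, for any finite group `X`. -/
lemma not_injective {Y X : Type} [Group Y] [Group X] [Finite X] {y z : Y} (h : y * z ≠ z * y)
    (φ : Lamplighter Y →* W X) : ¬ Function.Injective φ := by
  intro hinj
  apply h
  apply el_injective
  apply hinj
  apply Subtype.ext
  ext1 w
  have hfin : Finite {v : List X // v.length = w.length} := List.finite_length_eq X w.length
  have h1 := map_el ((level X w.length).comp φ) y z
  have h2 := congrArg (fun f : Equiv.Perm {v : List X // v.length = w.length} => (f ⟨w, rfl⟩).1) h1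
  exact h2

/-- **Answer to Q1 and Q2.** Let `Y` be a finite nonabelian group. Then `𝔾_Y` is a subgroup of the
finite state wreath power `W_Y` of the regular group `Y`, and no subgroup of `W_Y` is isomorphic to
the restricted wreath product `Y ≀ ℤ`; in particular `𝔾_Y` is not isomorphic to `Y ≀ ℤ`. Hence the
statements of Q1 and Q2 are false. -/
theorem result :
    (∀ (Y : Type) [Group Y] [Finite Y], (∃ y z : Y, y * z ≠ z * y) →
      GG Y ≤ W Y ∧ (¬ ∃ H : Subgroup (Equiv.Perm (List Y)), H ≤ W Y ∧
        Nonempty (H ≃* Lamplighter Y)) ∧ ¬ Nonempty (GG Y ≃* Lamplighter Y)) ∧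
    -- Q1
    (¬ ∀ (Y : Type) [Group Y] [Finite Y], 2 ≤ Nat.card Y → Nonempty (GG Y ≃* Lamplighter Y)) ∧
    -- Q2
    (¬ ∀ (Y : Type) [Group Y] [Finite Y], 2 ≤ Nat.card Y →
      ∃ H : Subgroup (Equiv.Perm (List Y)), H ≤ W Y ∧ Nonempty (H ≃* Lamplighter Y)) := by
  have main : ∀ (Y : Type) [Group Y] [Finite Y], (∃ y z : Y, y * z ≠ z * y) →
      ¬ ∃ H : Subgroup (Equiv.Perm (List Y)), H ≤ W Y ∧ Nonempty (H ≃* Lamplighter Y) := by
    rintro Y _ _ ⟨y, z, h⟩ ⟨H, hH, ⟨e⟩⟩
    exact not_injective h ((Subgroup.inclusion hH).comp e.symm.toMonoidHom)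
      ((Subgroup.inclusion_injective hH).comp e.symm.injective)
  have hex : ∃ y z : Equiv.Perm (Fin 3), y * z ≠ z * y :=
    ⟨Equiv.swap 0 1, Equiv.swap 1 2, by decide⟩
  have hcard : 2 ≤ Nat.card (Equiv.Perm (Fin 3)) := by
    rw [Nat.card_eq_fintype_card, Fintype.card_perm, Fintype.card_fin]
    decide
  refine ⟨fun Y _ _ h => ⟨GG_le_W Y, main Y h, fun he => main Y h ⟨GG Y, GG_le_W Y, he⟩⟩, ?_, ?_⟩
  · intro h
    exact main _ hex ⟨GG _, GG_le_W _, h (Equiv.Perm (Fin 3)) hcard⟩
  · intro h
    exact main _ hex (h (Equiv.Perm (Fin 3)) hcard)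

end Pool.Agent.Results.MP_e17fb9_al.NonabelianFails
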